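import Mathlib

/-!
# MP_21d1af_co, Q1

`p_box(2,k) = 4(k-1)` for every `k ≥ 2`.
-/

set_option autoImplicit false

open Finset

namespace Pool.Agent.Results.MP_21d1af_co.Piercing

/-- A proper box of `[n]²`: a product `B₁ × B₂` of nonempty proper subsets of `[n]`. -/
def IsProperBox {n : ℕ} (B : Finset (Fin n × Fin n)) : Prop :=
  ∃ B₁ B₂ : Finset (Fin n), B₁.Nonempty ∧ B₂.Nonempty ∧ B₁ ≠ univ ∧ B₂ ≠ univ ∧ B = B₁ ×ˢ B₂

/-- `P` is a partition of `[n]²` into proper boxes. -/
def IsPartition {n : ℕ} (P : Finset (Finset (Fin n × Fin n))) : Prop :=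
  (∀ B ∈ P, IsProperBox B) ∧ ∀ z : Fin n × Fin n, ∃! B, B ∈ P ∧ z ∈ B

/-- The `k`-piercing property: every column `{i} × [n]` and every row `[n] × {i}` meets at least
`k` members of `P`. -/
def Piercing {n : ℕ} (k : ℕ) (P : Finset (Finset (Fin n × Fin n))) : Prop :=
  ∀ i : Fin n, k ≤ (P.filter fun B => ∃ j, (i, j) ∈ B).card ∧
    k ≤ (P.filter fun B => ∃ j, (j, i) ∈ B).card

/-- `p_box(n,2,k)`. -/
noncomputable def pBox (n k : ℕ) : ℕ :=
  sInf {m | ∃ P : Finset (Finset (Fin n × Fin n)), IsPartition P ∧ Piercing k P ∧ P.card = m}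

/-! ### The minimax theorem for a finite matrix -/

theorem minimax {X ι : Type*} [Fintype X] [Fintype ι] [Nonempty X] [Nonempty ι]
    (M : X → ι → ℝ) :
    ∃ (p : X → ℝ) (w : ι → ℝ) (v : ℝ), (∀ x, 0 ≤ p x) ∧ ∑ x, p x = 1 ∧ (∀ i, 0 ≤ w i) ∧
      ∑ i, w i = 1 ∧ (∀ i, ∑ x, p x * M x i ≤ v) ∧ ∀ x, v ≤ ∑ i, w i * M x i := by
  classical
  let f : (X → ℝ) → (ι → ℝ) → ℝ := fun p w => ∑ x, ∑ i, p x * (w i * M x i)
  have hadd1 : ∀ p q w, f (p + q) w = f p w + f q w := by
    intro p q w
    simp only [f, Pi.add_apply, add_mul, Finset.sum_add_distrib]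
  have hsmul1 : ∀ (c : ℝ) p w, f (c • p) w = c * f p w := by
    intro c p w
    simp only [f, Pi.smul_apply, smul_eq_mul, Finset.mul_sum, mul_assoc]
  have hadd2 : ∀ p v w, f p (v + w) = f p v + f p w := by
    intro p v w
    simp only [f, Pi.add_apply, add_mul, mul_add, Finset.sum_add_distrib]
  have hsmul2 : ∀ (c : ℝ) p w, f p (c • w) = c * f p w := by
    intro c p w
    simp only [f, Pi.smul_apply, smul_eq_mul, Finset.mul_sum]
    refine Finset.sum_congr rfl fun x _ => Finset.sum_congr rfl fun i _ => ?_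
    ring
  have hne1 : (stdSimplex ℝ X).Nonempty :=
    ⟨_, single_mem_stdSimplex ℝ (Classical.arbitrary X)⟩
  have hne2 : (stdSimplex ℝ ι).Nonempty :=
    ⟨_, single_mem_stdSimplex ℝ (Classical.arbitrary ι)⟩
  obtain ⟨p, hp, w, hw, hs⟩ := Sion.exists_isSaddlePointOn' (X := stdSimplex ℝ X)
    (Y := stdSimplex ℝ ι) (f := f) hne1 (isCompact_stdSimplex ℝ X)
    (fun w _ => by
      have : Continuous fun p => f p w := by
        simp only [f]
        fun_prop
      exact this.continuousOn.lowerSemicontinuousOn)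
    (fun w _ => by
      refine ConvexOn.quasiconvexOn ⟨convex_stdSimplex ℝ X, ?_⟩
      intro p _ q _ a b _ _ _
      show f (a • p + b • q) w ≤ a * f p w + b * f q w
      rw [hadd1, hsmul1, hsmul1])
    (convex_stdSimplex ℝ ι) (isCompact_stdSimplex ℝ ι)
    (fun p _ => by
      have : Continuous fun w => f p w := by
        simp only [f]
        fun_prop
      exact this.continuousOn.upperSemicontinuousOn)
    (fun p _ => by
      refine ConcaveOn.quasiconcaveOn ⟨convex_stdSimplex ℝ ι, ?_⟩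
      intro u _ w _ a b _ _ _
      show a * f p u + b * f p w ≤ f p (a • u + b • w)
      rw [hadd2, hsmul2, hsmul2])
    (convex_stdSimplex ℝ X) hne2
  refine ⟨p, w, f p w, hp.1, hp.2, hw.1, hw.2, ?_, ?_⟩
  · intro i
    have h1 := hs p hp (Pi.single i 1) (single_mem_stdSimplex ℝ i)
    have h2 : f p (Pi.single i 1) = ∑ x, p x * M x i := by
      simp only [f]
      refine Finset.sum_congr rfl fun x _ => ?_
      rw [Finset.sum_eq_single i]
      · rw [Pi.single_eq_same, one_mul]
      · intro j _ hj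
        rw [Pi.single_eq_of_ne hj, zero_mul, mul_zero]
      · intro h
        exact absurd (Finset.mem_univ i) h
    rw [h2] at h1
    exact h1
  · intro x
    have h1 := hs (Pi.single x 1) (single_mem_stdSimplex ℝ x) w hw
    have h2 : f (Pi.single x 1) w = ∑ i, w i * M x i := by
      simp only [f]
      rw [Finset.sum_eq_single x]
      · simp only [Pi.single_eq_same, one_mul]
      · intro y _ hy
        simp only [Pi.single_eq_of_ne hy, zero_mul, Finset.sum_const_zero]
      · intro h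
        exact absurd (Finset.mem_univ x) h
    rw [h2] at h1
    exact h1

/-! ### The lower bound -/

/-- Two families of sets any two of which meet in exactly one point. -/
theorem lower {X Y ι : Type*} [Fintype X] [Fintype Y] [Fintype ι] [Nonempty X] [Nonempty Y]
    (A : ι → X → Prop) (B : ι → Y → Prop) [∀ x, DecidablePred fun i => A i x]
    [∀ y, DecidablePred fun i => B i y] (h1 : ∀ x y, ∃! i, A i x ∧ B i y)
    (hA : ∀ i, ∃ x, A i x) (hB : ∀ i, ∃ y, B i y) (k : ℕ)
    (hX : ∀ x, k ≤ (univ.filter fun i => A i x).card)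
    (hY : ∀ y, k ≤ (univ.filter fun i => B i y).card) :
    4 * (k - 1) ≤ Fintype.card ι := by
  classical
  have hne : Nonempty ι := by
    obtain ⟨i, -, -⟩ := h1 (Classical.arbitrary X) (Classical.arbitrary Y)
    exact ⟨i⟩
  let a : ι → X → ℝ := fun i x => if A i x then 1 else 0
  let b : ι → Y → ℝ := fun i y => if B i y then 1 else 0
  have ha0 : ∀ i x, 0 ≤ a i x := by
    intro i x
    simp only [a]
    split_ifs <;> norm_num
  have ha1 : ∀ i x, a i x ≤ 1 := by
    intro i x
    simp only [a]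
    split_ifs <;> norm_num
  have hb0 : ∀ i y, 0 ≤ b i y := by
    intro i y
    simp only [b]
    split_ifs <;> norm_num
  have hab : ∀ x y, ∑ i, a i x * b i y = 1 := by
    intro x y
    obtain ⟨i, hi, hu⟩ := h1 x y
    rw [Finset.sum_eq_single i]
    · simp only [a, b, if_pos hi.1, if_pos hi.2, one_mul]
    · intro j _ hj
      have : ¬ (A j x ∧ B j y) := fun h => hj (hu j h)
      simp only [a, b]
      by_cases h : A j x
      · rw [if_neg fun h' => this ⟨h, h'⟩, mul_zero]
      · rw [if_neg h, zero_mul]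
    · intro h
      exact absurd (Finset.mem_univ i) h
  have hak : ∀ x, (k : ℝ) ≤ ∑ i, a i x := by
    intro x
    have h2 : ∑ i, a i x = ((univ.filter fun i => A i x).card : ℝ) := by
      rw [Finset.card_filter]
      push_cast
      rfl
    rw [h2]
    exact_mod_cast hX x
  have hbk : ∀ y, (k : ℝ) ≤ ∑ i, b i y := by
    intro y
    have h2 : ∑ i, b i y = ((univ.filter fun i => B i y).card : ℝ) := by
      rw [Finset.card_filter]
      push_cast
      rfl
    rw [h2]
    exact_mod_cast hY y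
  obtain ⟨p, w, v, hp0, hp1, hw0, hw1, hα, hv⟩ := minimax (fun x i => a i x)
  choose g hg using hB
  -- the weights of the boxes
  let α : ι → ℝ := fun i => ∑ x, p x * a i x
  let β : ι → ℝ := fun j => ∑ i, w i * b j (g i)
  have hαv : ∀ i, α i ≤ v := hα
  -- complementary slackness
  have hslack : ∀ i, w i * (v - α i) = 0 := by
    have h2 : ∑ i, w i * α i = ∑ x, p x * ∑ i, w i * a i x := by
      simp only [α, Finset.mul_sum]
      rw [Finset.sum_comm]
      refine Finset.sum_congr rfl fun x _ => Finset.sum_congr rfl fun i _ => ?_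
      ring
    have h3 : v ≤ ∑ i, w i * α i := by
      rw [h2]
      calc v = ∑ x, p x * v := by rw [← Finset.sum_mul, hp1, one_mul]
        _ ≤ _ := Finset.sum_le_sum fun x _ => mul_le_mul_of_nonneg_left (hv x) (hp0 x)
    have h4 : ∑ i, w i * (v - α i) = 0 := by
      apply le_antisymm
      · have : ∑ i, w i * (v - α i) = v - ∑ i, w i * α i := by
          simp only [mul_sub, Finset.sum_sub_distrib, ← Finset.sum_mul, hw1, one_mul]
        rw [this]
        linarith
      · exact Finset.sum_nonneg fun i _ => mul_nonneg (hw0 i) (by linarith [hαv i])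
    intro i
    exact (Finset.sum_eq_zero_iff_of_nonneg fun i _ =>
      mul_nonneg (hw0 i) (by linarith [hαv i])).1 h4 i (Finset.mem_univ i)
  have hβw : ∀ l, w l ≤ β l := by
    intro l
    have h2 : w l * b l (g l) ≤ β l :=
      Finset.single_le_sum (f := fun i => w i * b l (g i))
        (fun i _ => mul_nonneg (hw0 i) (hb0 _ _)) (Finset.mem_univ l)
    have h3 : b l (g l) = 1 := by simp only [b, if_pos (hg l)]
    rw [h3, mul_one] at h2
    exact h2
  -- sum over a row
  have hrow : ∀ x, ∑ l, a l x * β l = 1 := by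
    intro x
    have h2 : ∑ l, a l x * β l = ∑ i, w i * ∑ l, a l x * b l (g i) := by
      simp only [β, Finset.mul_sum]
      rw [Finset.sum_comm]
      refine Finset.sum_congr rfl fun i _ => Finset.sum_congr rfl fun l _ => ?_
      ring
    rw [h2]
    simp only [hab, mul_one]
    exact hw1
  have hβ : ∀ j, w j = 0 → β j ≤ 1 - v := by
    intro j hj
    obtain ⟨x, hx⟩ := hA j
    have h2 : β j + ∑ l, a l x * w l ≤ ∑ l, a l x * β l := by
      rw [← Finset.add_sum_erase univ (fun l => a l x * w l) (Finset.mem_univ j),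
        ← Finset.add_sum_erase univ (fun l => a l x * β l) (Finset.mem_univ j)]
      have h3 : a j x = 1 := by simp only [a, if_pos hx]
      have h4 : ∑ l ∈ univ.erase j, a l x * w l ≤ ∑ l ∈ univ.erase j, a l x * β l :=
        Finset.sum_le_sum fun l _ => mul_le_mul_of_nonneg_left (hβw l) (ha0 l x)
      simp only [h3, hj, mul_zero, one_mul, zero_add]
      linarith
    have h5 : v ≤ ∑ l, a l x * w l := by
      have := hv x
      simp only [mul_comm (a _ x)]
      exact this
    rw [hrow x] at h2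
    linarith
  have hprod : ∀ i, 0 ≤ (v - α i) * ((1 - v) - β i) := by
    intro i
    by_cases hi : w i = 0
    · exact mul_nonneg (by linarith [hαv i]) (by linarith [hβ i hi])
    · have := (mul_eq_zero.1 (hslack i)).resolve_left hi
      rw [this, zero_mul]
  -- the three sums
  have hsα : (k : ℝ) ≤ ∑ i, α i := by
    have h2 : ∑ i, α i = ∑ x, p x * ∑ i, a i x := by
      simp only [α, Finset.mul_sum]
      rw [Finset.sum_comm]
    rw [h2]
    calc (k : ℝ) = ∑ x, p x * (k : ℝ) := by rw [← Finset.sum_mul, hp1, one_mul]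
      _ ≤ _ := Finset.sum_le_sum fun x _ => mul_le_mul_of_nonneg_left (hak x) (hp0 x)
  have hsβ : (k : ℝ) ≤ ∑ j, β j := by
    have h2 : ∑ j, β j = ∑ i, w i * ∑ j, b j (g i) := by
      simp only [β, Finset.mul_sum]
      rw [Finset.sum_comm]
    rw [h2]
    calc (k : ℝ) = ∑ i, w i * (k : ℝ) := by rw [← Finset.sum_mul, hw1, one_mul]
      _ ≤ _ := Finset.sum_le_sum fun i _ => mul_le_mul_of_nonneg_left (hbk _) (hw0 i)
  have hsαβ : ∑ i, α i * β i = 1 := by
    have h2 : ∑ i, α i * β i = ∑ x, p x * ∑ i, a i x * β i := by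
      simp only [α, Finset.mul_sum, Finset.sum_mul]
      rw [Finset.sum_comm]
      refine Finset.sum_congr rfl fun x _ => Finset.sum_congr rfl fun i _ => ?_
      ring
    rw [h2]
    simp only [hrow, mul_one]
    exact hp1
  have hv1 : v ≤ 1 := by
    refine (hv (Classical.arbitrary X)).trans ?_
    calc ∑ i, w i * a i (Classical.arbitrary X) ≤ ∑ i, w i * 1 :=
          Finset.sum_le_sum fun i _ => mul_le_mul_of_nonneg_left (ha1 _ _) (hw0 i)
      _ = 1 := by rw [← Finset.sum_mul, hw1, one_mul]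
  have hv0 : 0 ≤ v := by
    refine le_trans ?_ (hαv (Classical.arbitrary ι))
    exact Finset.sum_nonneg fun x _ => mul_nonneg (hp0 x) (ha0 _ x)
  have hsum : 0 ≤ ∑ i, (v - α i) * ((1 - v) - β i) := Finset.sum_nonneg fun i _ => hprod i
  have hexp : ∑ i, (v - α i) * ((1 - v) - β i) =
      (Fintype.card ι : ℝ) * (v * (1 - v)) - (1 - v) * ∑ i, α i - v * ∑ i, β i +
        ∑ i, α i * β i := by
    have h2 : ∀ i, (v - α i) * ((1 - v) - β i) =
        v * (1 - v) - (1 - v) * α i - v * β i + α i * β i := fun i => by ring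
    simp only [h2, Finset.sum_add_distrib, Finset.sum_sub_distrib, Finset.mul_sum,
      Finset.sum_const, Finset.card_univ, nsmul_eq_mul]
  rw [hexp, hsαβ] at hsum
  have h5 := mul_le_mul_of_nonneg_left hsα (show 0 ≤ 1 - v by linarith)
  have h6 := mul_le_mul_of_nonneg_left hsβ hv0
  have h7 : (k : ℝ) - 1 ≤ (Fintype.card ι : ℝ) * (v * (1 - v)) := by nlinarith
  have h8 : v * (1 - v) ≤ 1 / 4 := by nlinarith [sq_nonneg (v - 1 / 2)]
  have h9 : (Fintype.card ι : ℝ) * (v * (1 - v)) ≤ (Fintype.card ι : ℝ) * (1 / 4) :=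
    mul_le_mul_of_nonneg_left h8 (Nat.cast_nonneg _)
  have h10 : 4 * (k : ℝ) ≤ (Fintype.card ι : ℝ) + 4 := by linarith
  have h11 : 4 * k ≤ Fintype.card ι + 4 := by exact_mod_cast h10
  omega

/-- every partition of `[n]²` into proper boxes with the `k`-piercing property has at least
`4(k-1)` parts -/
theorem lower_bound {n k : ℕ} (hn : n ≠ 0) (P : Finset (Finset (Fin n × Fin n)))
    (hP : IsPartition P) (hk : Piercing k P) : 4 * (k - 1) ≤ P.card := by
  classical
  haveI : Nonempty (Fin n) := ⟨⟨0, Nat.pos_of_ne_zero hn⟩⟩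
  obtain ⟨hbox, hpart⟩ := hP
  have hmem : ∀ B ∈ P, ∀ x y, ((∃ j, (x, j) ∈ B) ∧ ∃ j, (j, y) ∈ B) ↔ (x, y) ∈ B := by
    intro B hB x y
    obtain ⟨B₁, B₂, -, -, -, -, rfl⟩ := hbox B hB
    constructor
    · rintro ⟨⟨j, hj⟩, ⟨j', hj'⟩⟩
      exact Finset.mem_product.2 ⟨(Finset.mem_product.1 hj).1, (Finset.mem_product.1 hj').2⟩
    · intro h
      exact ⟨⟨y, h⟩, ⟨x, h⟩⟩
  have hcard : Fintype.card {B // B ∈ P} = P.card := Fintype.card_coe P
  rw [← hcard]
  refine lower (X := Fin n) (Y := Fin n) (fun (B : {B // B ∈ P}) x => ∃ j, (x, j) ∈ B.1)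
    (fun B y => ∃ j, (j, y) ∈ B.1) ?_ ?_ ?_ k ?_ ?_
  · intro x y
    obtain ⟨B, ⟨hB, hxy⟩, hu⟩ := hpart (x, y)
    refine ⟨⟨B, hB⟩, (hmem B hB x y).2 hxy, ?_⟩
    rintro ⟨B', hB'⟩ h
    have := hu B' ⟨hB', (hmem B' hB' x y).1 h⟩
    exact Subtype.ext this
  · rintro ⟨B, hB⟩
    obtain ⟨B₁, B₂, ⟨x, hx⟩, ⟨y, hy⟩, -, -, rfl⟩ := hbox B hB
    exact ⟨x, y, Finset.mem_product.2 ⟨hx, hy⟩⟩
  · rintro ⟨B, hB⟩
    obtain ⟨B₁, B₂, ⟨x, hx⟩, ⟨y, hy⟩, -, -, rfl⟩ := hbox B hB
    exact ⟨y, x, Finset.mem_product.2 ⟨hx, hy⟩⟩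
  · intro x
    refine (hk x).1.trans (le_of_eq ?_)
    refine Finset.card_bij' (fun B hB => ⟨B, (Finset.mem_filter.1 hB).1⟩) (fun B _ => B.1)
      ?_ ?_ ?_ ?_
    · intro B hB
      rw [Finset.mem_filter] at hB ⊢
      exact ⟨Finset.mem_univ _, hB.2⟩
    · intro B hB
      rw [Finset.mem_filter] at hB ⊢
      exact ⟨B.2, hB.2⟩
    · intro B _
      rfl
    · intro B _
      rfl
  · intro y
    refine (hk y).2.trans (le_of_eq ?_)
    refine Finset.card_bij' (fun B hB => ⟨B, (Finset.mem_filter.1 hB).1⟩) (fun B _ => B.1)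
      ?_ ?_ ?_ ?_
    · intro B hB
      rw [Finset.mem_filter] at hB ⊢
      exact ⟨Finset.mem_univ _, hB.2⟩
    · intro B hB
      rw [Finset.mem_filter] at hB ⊢
      exact ⟨B.2, hB.2⟩
    · intro B _
      rfl
    · intro B _
      rfl

/-! ### The upper bound -/

/-- The position of `i` inside its half: `i` if `i < K`, and `min (i - K) (K - 1)` otherwise. -/
def idx {n : ℕ} (K : ℕ) (i : Fin n) : ℕ := if i.1 < K then i.1 else min (i.1 - K) (K - 1)

/-- The label of a cell: four quadrants, two of them cut into horizontal strips, two of them cut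
into vertical strips. -/
def lab {n : ℕ} (K : ℕ) (z : Fin n × Fin n) : Bool × Bool × ℕ :=
  (decide (z.1.1 < K), decide (z.2.1 < K),
    if decide (z.1.1 < K) = decide (z.2.1 < K) then idx K z.1 else idx K z.2)

theorem idx_lt {n K : ℕ} (hK : 1 ≤ K) (i : Fin n) : idx K i < K := by
  unfold idx
  split_ifs with h
  · exact h
  · exact lt_of_le_of_lt (min_le_right _ _) (by omega)

/-- the first side of the box with label `l` -/
def side1 (n K : ℕ) (l : Bool × Bool × ℕ) : Finset (Fin n) :=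
  univ.filter fun i => decide (i.1 < K) = l.1 ∧ (l.1 = l.2.1 → idx K i = l.2.2)

/-- the second side of the box with label `l` -/
def side2 (n K : ℕ) (l : Bool × Bool × ℕ) : Finset (Fin n) :=
  univ.filter fun i => decide (i.1 < K) = l.2.1 ∧ (l.1 ≠ l.2.1 → idx K i = l.2.2)

theorem mem_box {n K : ℕ} (l : Bool × Bool × ℕ) (z : Fin n × Fin n) :
    z ∈ side1 n K l ×ˢ side2 n K l ↔ lab K z = l := by
  obtain ⟨l1, l2, l3⟩ := l
  simp only [Finset.mem_product, side1, side2, Finset.mem_filter, Finset.mem_univ, true_and, lab,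
    Prod.mk.injEq]
  constructor
  · rintro ⟨⟨h1, h2⟩, h3, h4⟩
    refine ⟨h1, h3, ?_⟩
    rw [h1, h3]
    split_ifs with h
    · exact h2 h
    · exact h4 h
  · rintro ⟨h1, h3, h4⟩
    rw [h1, h3] at h4
    refine ⟨⟨h1, fun h => ?_⟩, h3, fun h => ?_⟩
    · rw [if_pos h] at h4
      exact h4
    · rw [if_neg h] at h4
      exact h4

/-- the labels -/
def labels (K : ℕ) : Finset (Bool × Bool × ℕ) := univ ×ˢ univ ×ˢ range K

theorem card_labels (K : ℕ) : (labels K).card = 4 * K := by
  simp only [labels, Finset.card_product, Finset.card_univ, Fintype.card_bool, Finset.card_range]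
  ring

/-- a cell with a given half-pair and given positions -/
theorem exists_idx {n K : ℕ} (hK : 1 ≤ K) (hn : 2 * K ≤ n) (c : Bool) (t : ℕ) (ht : t < K) :
    ∃ i : Fin n, decide (i.1 < K) = c ∧ idx K i = t := by
  cases c
  · refine ⟨⟨K + t, by omega⟩, ?_, ?_⟩
    · simp
    · unfold idx
      simp only
      rw [if_neg (by omega)]
      have : K + t - K = t := by omega
      rw [this, min_eq_left (by omega)]
  · refine ⟨⟨t, by omega⟩, ?_, ?_⟩
    · simp [ht]
    · unfold idx
      simp only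
      rw [if_pos ht]

/-- the boxes -/
def boxes (n K : ℕ) : Finset (Finset (Fin n × Fin n)) :=
  (labels K).image fun l => side1 n K l ×ˢ side2 n K l

theorem lab_mem {n K : ℕ} (hK : 1 ≤ K) (z : Fin n × Fin n) : lab K z ∈ labels K := by
  refine Finset.mem_product.2 ⟨Finset.mem_univ _, Finset.mem_product.2
    ⟨Finset.mem_univ _, Finset.mem_range.2 ?_⟩⟩
  show (if decide (z.1.1 < K) = decide (z.2.1 < K) then idx K z.1 else idx K z.2) < K
  split_ifs
  · exact idx_lt hK _
  · exact idx_lt hK _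

theorem boxes_partition {n K : ℕ} (hK : 1 ≤ K) (hn : 2 * K ≤ n) : IsPartition (boxes n K) := by
  constructor
  · intro B hB
    obtain ⟨l, hl, rfl⟩ := Finset.mem_image.1 hB
    obtain ⟨l1, l2, l3⟩ := l
    have hl3 : l3 < K := by
      have := (Finset.mem_product.1 (Finset.mem_product.1 hl).2).2
      exact Finset.mem_range.1 this
    obtain ⟨i, hi1, hi2⟩ := exists_idx hK hn l1 l3 hl3
    obtain ⟨j, hj1, hj2⟩ := exists_idx hK hn l2 l3 hl3
    obtain ⟨i', hi1', -⟩ := exists_idx hK hn (!l1) l3 hl3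
    obtain ⟨j', hj1', -⟩ := exists_idx hK hn (!l2) l3 hl3
    refine ⟨_, _, ⟨i, ?_⟩, ⟨j, ?_⟩, ?_, ?_, rfl⟩
    · exact Finset.mem_filter.2 ⟨Finset.mem_univ _, hi1, fun _ => hi2⟩
    · exact Finset.mem_filter.2 ⟨Finset.mem_univ _, hj1, fun _ => hj2⟩
    · intro h
      have h1 : i' ∈ side1 n K (l1, l2, l3) := h ▸ Finset.mem_univ _
      have h2 := (Finset.mem_filter.1 h1).2.1
      rw [hi1'] at h2
      simp at h2
    · intro h
      have h1 : j' ∈ side2 n K (l1, l2, l3) := h ▸ Finset.mem_univ _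
      have h2 := (Finset.mem_filter.1 h1).2.1
      rw [hj1'] at h2
      simp at h2
  · intro z
    refine ⟨side1 n K (lab K z) ×ˢ side2 n K (lab K z),
      ⟨Finset.mem_image.2 ⟨_, lab_mem hK z, rfl⟩, (mem_box _ _).2 rfl⟩, ?_⟩
    rintro B ⟨hB, hz⟩
    obtain ⟨l, -, rfl⟩ := Finset.mem_image.1 hB
    have := (mem_box l z).1 hz
    rw [this]

theorem card_boxes (n K : ℕ) : (boxes n K).card ≤ 4 * K := by
  rw [← card_labels K]
  exact Finset.card_image_le

theorem boxes_piercing {n K : ℕ} (hK : 1 ≤ K) (hn : 2 * K ≤ n) :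
    Piercing (K + 1) (boxes n K) := by
  classical
  have hinj : ∀ l ∈ labels K, ∀ l', side1 n K l ×ˢ side2 n K l = side1 n K l' ×ˢ side2 n K l' →
      l = l' := by
    rintro ⟨l1, l2, l3⟩ hl l' h
    have hl3 : l3 < K := by
      have := (Finset.mem_product.1 (Finset.mem_product.1 hl).2).2
      exact Finset.mem_range.1 this
    obtain ⟨i, hi1, hi2⟩ := exists_idx hK hn l1 l3 hl3
    obtain ⟨j, hj1, hj2⟩ := exists_idx hK hn l2 l3 hl3
    have h1 : (i, j) ∈ side1 n K (l1, l2, l3) ×ˢ side2 n K (l1, l2, l3) :=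
      Finset.mem_product.2 ⟨Finset.mem_filter.2 ⟨Finset.mem_univ _, hi1, fun _ => hi2⟩,
        Finset.mem_filter.2 ⟨Finset.mem_univ _, hj1, fun _ => hj2⟩⟩
    have h2 := (mem_box _ _).1 h1
    rw [h] at h1
    rw [← h2]
    exact (mem_box _ _).1 h1
  -- a set of labels gives as many boxes
  have hcount : ∀ (T : Finset (Bool × Bool × ℕ)) (Q : Finset (Fin n × Fin n) → Prop)
      [DecidablePred Q], T ⊆ labels K → (∀ l ∈ T, Q (side1 n K l ×ˢ side2 n K l)) →
      T.card ≤ ((boxes n K).filter Q).card := by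
    intro T Q _ hT hQ
    have h1 : (T.image fun l => side1 n K l ×ˢ side2 n K l).card = T.card := by
      apply Finset.card_image_of_injOn
      intro l hl l' _ h
      exact hinj l (hT hl) l' h
    rw [← h1]
    apply Finset.card_le_card
    intro B hB
    obtain ⟨l, hl, rfl⟩ := Finset.mem_image.1 hB
    exact Finset.mem_filter.2 ⟨Finset.mem_image.2 ⟨l, hT hl, rfl⟩, hQ l hl⟩
  intro i
  obtain ⟨c, hc⟩ : ∃ c : Bool, c = decide (i.1 < K) := ⟨_, rfl⟩
  have hidx := idx_lt hK i
  constructor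
  · let T : Finset (Bool × Bool × ℕ) := insert (c, c, idx K i)
      ((range K).image fun t => (c, !c, t))
    have hTcard : T.card = K + 1 := by
      rw [Finset.card_insert_of_notMem, Finset.card_image_of_injective, Finset.card_range]
      · intro t t' h
        simpa using h
      · intro h
        obtain ⟨t, -, ht⟩ := Finset.mem_image.1 h
        simp at ht
    rw [← hTcard]
    apply hcount
    · intro l hl
      rcases Finset.mem_insert.1 hl with rfl | hl
      · exact Finset.mem_product.2 ⟨Finset.mem_univ _, Finset.mem_product.2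
          ⟨Finset.mem_univ _, Finset.mem_range.2 hidx⟩⟩
      · obtain ⟨t, ht, rfl⟩ := Finset.mem_image.1 hl
        exact Finset.mem_product.2 ⟨Finset.mem_univ _, Finset.mem_product.2
          ⟨Finset.mem_univ _, ht⟩⟩
    · intro l hl
      rcases Finset.mem_insert.1 hl with rfl | hl
      · obtain ⟨j, hj1, hj2⟩ := exists_idx hK hn c 0 (by omega)
        refine ⟨j, (mem_box _ _).2 ?_⟩
        simp only [lab, hj1, ← hc, if_true]
      · obtain ⟨t, ht, rfl⟩ := Finset.mem_image.1 hl
        obtain ⟨j, hj1, hj2⟩ := exists_idx hK hn (!c) t (Finset.mem_range.1 ht)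
        refine ⟨j, (mem_box _ _).2 ?_⟩
        simp only [lab, hj1, ← hc, hj2]
        rw [if_neg (by simp)]
  · let T : Finset (Bool × Bool × ℕ) := insert (!c, c, idx K i)
      ((range K).image fun t => (c, c, t))
    have hTcard : T.card = K + 1 := by
      rw [Finset.card_insert_of_notMem, Finset.card_image_of_injective, Finset.card_range]
      · intro t t' h
        simpa using h
      · intro h
        obtain ⟨t, -, ht⟩ := Finset.mem_image.1 h
        simp at ht
    rw [← hTcard]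
    apply hcount
    · intro l hl
      rcases Finset.mem_insert.1 hl with rfl | hl
      · exact Finset.mem_product.2 ⟨Finset.mem_univ _, Finset.mem_product.2
          ⟨Finset.mem_univ _, Finset.mem_range.2 hidx⟩⟩
      · obtain ⟨t, ht, rfl⟩ := Finset.mem_image.1 hl
        exact Finset.mem_product.2 ⟨Finset.mem_univ _, Finset.mem_product.2
          ⟨Finset.mem_univ _, ht⟩⟩
    · intro l hl
      rcases Finset.mem_insert.1 hl with rfl | hl
      · obtain ⟨j, hj1, hj2⟩ := exists_idx hK hn (!c) 0 (by omega)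
        refine ⟨j, (mem_box _ _).2 ?_⟩
        simp only [lab, hj1, ← hc]
        rw [if_neg (by simp)]
      · obtain ⟨t, ht, rfl⟩ := Finset.mem_image.1 hl
        obtain ⟨j, hj1, hj2⟩ := exists_idx hK hn c t (Finset.mem_range.1 ht)
        refine ⟨j, (mem_box _ _).2 ?_⟩
        simp only [lab, hj1, ← hc, hj2, if_true]

/-- `p_box(n,2,k) = 4(k-1)` for `n ≥ 2(k-1)` -/
theorem pBox_eq {n k : ℕ} (hk : 2 ≤ k) (hn : 2 * (k - 1) ≤ n) : pBox n k = 4 * (k - 1) := by
  obtain ⟨K, rfl⟩ : ∃ K, k = K + 1 := ⟨k - 1, by omega⟩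
  have hK : 1 ≤ K := by omega
  have hK' : K + 1 - 1 = K := by omega
  rw [hK'] at hn ⊢
  have hmem : (boxes n K).card ∈ {m | ∃ P : Finset (Finset (Fin n × Fin n)),
      IsPartition P ∧ Piercing (K + 1) P ∧ P.card = m} :=
    ⟨boxes n K, boxes_partition hK hn, boxes_piercing hK hn, rfl⟩
  apply le_antisymm
  · exact (Nat.sInf_le hmem).trans (card_boxes n K)
  · obtain ⟨P, hP, hpi, hcard⟩ := Nat.sInf_mem ⟨_, hmem⟩
    have h1 := lower_bound (by omega) P hP hpi
    rw [hK'] at h1
    unfold pBox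
    rw [← hcard]
    exact h1

/-- **Q1, affirmative answer.** For every `k ≥ 2` (in particular for every `k ≥ 3`):
every partition of `[n]²`, `n ≥ 1`, into proper boxes with the `k`-piercing property has at least
`4(k-1)` parts; `p_box(n,2,k) = 4(k-1)` for all `n ≥ 2(k-1)`; and
`p_box(2,k) = lim_n p_box(n,2,k) = 4(k-1)`. -/
theorem result (k : ℕ) (hk : 2 ≤ k) :
    (∀ n : ℕ, 1 ≤ n → ∀ P : Finset (Finset (Fin n × Fin n)), IsPartition P → Piercing k P →
      4 * (k - 1) ≤ P.card) ∧
    (∀ n : ℕ, 2 * (k - 1) ≤ n → pBox n k = 4 * (k - 1)) ∧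
    Filter.Tendsto (fun n => pBox n k) Filter.atTop (nhds (4 * (k - 1))) := by
  refine ⟨fun n hn P hP hpi => lower_bound (by omega) P hP hpi, fun n hn => pBox_eq hk hn, ?_⟩
  refine tendsto_const_nhds.congr' ?_
  filter_upwards [Filter.eventually_ge_atTop (2 * (k - 1))] with n hn
  exact (pBox_eq hk hn).symm

end Pool.Agent.Results.MP_21d1af_co.Piercing
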